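import Mathlib
import Pool.Agent.H.MP_985997_co.A
import Pool.Agent.H.MP_985997_co.B

namespace Pool.Agent.Results.MP_985997_co.Yes

open Pool.Agent.H.MP_985997_co

/-- Every induced subgraph has chromatic number equal to its clique number. -/
def Perfect {V : Type} (G : SimpleGraph V) : Prop :=
  ∀ s : Set V, (G.induce s).chromaticNumber = (G.induce s).cliqueNum

/-- A legal move: stay or go to an adjacent vertex. -/
def Step {V : Type} (G : SimpleGraph V) (x y : V) : Prop := y = x ∨ G.Adj x y

/-- The robber's first `t` positions, latest first. -/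
def hist {V : Type} (r : ℕ → V) : ℕ → List V
  | 0 => []
  | t + 1 => r t :: hist r t

/-- `k` cops have a winning strategy. The strategy `σ` gives the positions of the cops as a
function of the robber's positions so far: `σ []` is the start, and `σ (hist r (t + 1))` is the
position after the cops answer the robber standing at `r t`. Every cop move is legal, and against
every legal sequence of robber positions some cop is at some time on the robber's vertex. -/
def CopsWin {V : Type} (G : SimpleGraph V) (k : ℕ) : Prop :=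
  ∃ σ : List V → Fin k → V, (∀ l r i, Step G (σ l i) (σ (r :: l) i)) ∧
    ∀ r : ℕ → V, (∀ t, Step G (r t) (r (t + 1))) →
      ∃ t i, σ (hist r t) i = r t ∨ σ (hist r (t + 1)) i = r t

/-- The cop number. -/
noncomputable def copNumber {V : Type} (G : SimpleGraph V) : ℕ := sInf {k | CopsWin G k}

def Win {V : Type} (G : SimpleGraph V) : ℕ → V × V → V → Prop
  | 0, _, _ => False
  | n + 1, c, r => ∃ c' : V × V, Step G c.1 c'.1 ∧ Step G c.2 c'.2 ∧
      (c'.1 = r ∨ c'.2 = r ∨ ∀ r', Step G r r' → Win G n c' r')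

theorem Win.mono {V : Type} {G : SimpleGraph V} :
    ∀ {n m : ℕ} {c : V × V} {r : V}, n ≤ m → Win G n c r → Win G m c r
  | 0, _, _, _, _, h => h.elim
  | _ + 1, 0, _, _, h, _ => absurd h (by omega)
  | _ + 1, _ + 1, _, _, h, ⟨c', h1, h2, h3⟩ =>
    ⟨c', h1, h2, h3.imp_right (Or.imp_right fun h3 r' hr => (h3 r' hr).mono (by omega))⟩

theorem strat {V : Type} (G : SimpleGraph V) (c0 : V × V) (h : ∀ r, ∃ n, Win G n c0 r) :
    CopsWin G 2 := by
  classical
  have ex : ∀ (c : V × V) (r : V), ∃ c' : V × V, Step G c.1 c'.1 ∧ Step G c.2 c'.2 ∧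
      ∀ n, Win G (n + 1) c r → (c'.1 = r ∨ c'.2 = r ∨ ∀ r', Step G r r' → Win G n c' r') := by
    intro c r
    by_cases hw : ∃ n, Win G (n + 1) c r
    · obtain ⟨c', h1, h2, h3⟩ := Nat.find_spec hw
      exact ⟨c', h1, h2, fun n hn => h3.imp_right (Or.imp_right fun h3 r' hr =>
        (h3 r' hr).mono (Nat.find_min' hw hn))⟩
    · exact ⟨c, Or.inl rfl, Or.inl rfl, fun n hn => absurd ⟨n, hn⟩ hw⟩
  choose s s1 s2 s3 using ex
  let pos : List V → V × V := fun l => l.rec c0 fun r _ c => s c r
  refine ⟨fun l => ![(pos l).1, (pos l).2], fun l r i => ?_, fun r hr => ?_⟩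
  · fin_cases i
    · exact s1 _ _
    · exact s2 _ _
  · have key : ∀ n t, Win G n (pos (hist r t)) (r t) →
        ∃ t, (pos (hist r (t + 1))).1 = r t ∨ (pos (hist r (t + 1))).2 = r t := by
      intro n
      induction n with
      | zero => exact fun t h => h.elim
      | succ n ih =>
        intro t h
        rcases s3 _ _ n h with h | h | h
        · exact ⟨t, Or.inl h⟩
        · exact ⟨t, Or.inr h⟩
        · exact ih (t + 1) (h _ (hr t))
    obtain ⟨n, hn⟩ := h (r 0)
    obtain ⟨t, ht | ht⟩ := key n 0 hn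
    · exact ⟨t, 0, Or.inr ht⟩
    · exact ⟨t, 1, Or.inr ht⟩

theorem result (n : ℕ) (G : SimpleGraph (Fin n)) (hc : G.Connected) (hp : Perfect G)
    (ha : G.indepNum = 3) : CopsWin G 2 ∧ copNumber G ≤ 2 := by
  suffices h : CopsWin G 2 from ⟨h, Nat.sInf_le h⟩
  have hb := A.bound G hp
  obtain ⟨f, f1, f2⟩ := A.cover G hb Finset.univ
  have h3 : A.ind G Finset.univ ≤ 3 := by
    obtain ⟨I, -, i2, i3⟩ :=
      A.ex_mx (P := fun I : Finset (Fin n) => G.IsIndepSet I) (by simp) Finset.univ
    exact i3.ge.trans (ha ▸ i2.card_le_indepNum)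
  by_contra hn
  refine B.game G hc f (fun v => (f1 v (Finset.mem_univ _)).trans_le h3)
    (fun u v => f2 u (Finset.mem_univ _) v (Finset.mem_univ _)) (A.noC5 G hb)
    (fun x y z => ∀ m, ¬ Win G m (x, y) z) (fun x y => ?_) (fun x y z x' y' h hx hy => ?_)
  · by_contra hz
    push Not at hz
    exact hn (strat G (x, y) hz)
  · refine ⟨fun e => h 1 ⟨(x', y'), hx, hy, Or.inl e⟩,
      fun e => h 1 ⟨(x', y'), hx, hy, Or.inr (Or.inl e)⟩, ?_⟩
    by_contra hz
    push Not at hz
    have : ∀ z', ∃ m, Step G z z' → Win G m (x', y') z' := by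
      intro z'
      by_cases hs : Step G z z'
      · obtain ⟨m, hm⟩ := hz z' hs
        exact ⟨m, fun _ => hm⟩
      · exact ⟨0, fun a => absurd a hs⟩
    choose m hm using this
    exact h (Finset.univ.sup m + 1) ⟨(x', y'), hx, hy, Or.inr (Or.inr fun z' hs =>
      (hm z' hs).mono (Finset.le_sup (Finset.mem_univ _)))⟩

end Pool.Agent.Results.MP_985997_co.Yes
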